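import Pool.Agent.V5helper63.NP.Stm

/-!
# Project NP, job B2
-/

set_option autoImplicit false

namespace Pool.Agent.V5helper96.NP

open Pool.Agent.V5helper63.NP

theorem t_B2 : Pool.Agent.V5helper63.NP.S_B2 := by
  intro k m p a c d hp hp3 hm hak hck hdm hN hA hE
  unfold Eqn at hE
  obtain ⟨n, rfl⟩ : ∃ n, m = n + 3 := ⟨m - 3, by omega⟩
  have hpodd : p % 2 = 1 := by
    rcases hp.eq_two_or_odd with h | h
    · omega
    · exact h
  have hk2 : 2 ≤ k + 1 := by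
    by_contra h
    have : k = 0 := by omega
    subst this
    norm_num at hN
    omega
  have h4N : (4 : ℤ) ∣ 2 ^ (k + 1) := by
    have := pow_dvd_pow (2 : ℤ) hk2
    norm_num at this
    exact this
  obtain ⟨P, hP⟩ : ∃ P : ℤ, P = p := ⟨_, rfl⟩
  obtain ⟨N, hNd⟩ : ∃ N : ℤ, N = 2 ^ (k + 1) := ⟨_, rfl⟩
  obtain ⟨A, hAd⟩ : ∃ A : ℤ, A = 2 ^ a := ⟨_, rfl⟩
  obtain ⟨C, hCd⟩ : ∃ C : ℤ, C = 2 ^ c := ⟨_, rfl⟩
  rw [← hP, ← hNd, ← hAd, ← hCd] at hE
  rw [← hNd] at h4N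
  have hP3 : 3 ≤ P := by rw [hP]; exact_mod_cast hp3
  have hN2 : 2 * P < N := by rw [hP, hNd]; exact_mod_cast hN
  have hA2 : A * (2 * P) ≤ N := by rw [hP, hNd, hAd]; exact_mod_cast hA
  have hC2 : 2 * C ≤ N := by
    rw [hCd, hNd, pow_succ]
    have : (2 : ℤ) ^ c ≤ 2 ^ k := pow_le_pow_right₀ (by norm_num) hck
    linarith
  have hC0 : 0 < C := by rw [hCd]; positivity
  have hP0 : 0 < P := by linarith
  obtain ⟨r, hr⟩ : ∃ r : ℤ, P = 2 * r + 1 := ⟨(p / 2 : ℕ), by rw [hP]; omega⟩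
  obtain ⟨T, hT⟩ : ∃ T : ℤ, T = N - P - (P - 1) * A := ⟨_, rfl⟩
  have h1 : P ^ (n + 3) * T = (N - 1) + (P - 1) * C * P ^ d := by
    rw [hT]
    linear_combination hE
  have h2 : (P + 1) * N - 2 * P ^ 2 ≤ 2 * P * T := by
    rw [hT]
    have := mul_le_mul_of_nonneg_left hA2 (by linarith : 0 ≤ P - 1)
    nlinarith
  obtain ⟨B, hB⟩ : ∃ B : ℤ, B = (P + 1) * N - 2 * P ^ 2 := ⟨_, rfl⟩
  rw [← hB] at h2
  have hB0 : 0 ≤ B := by rw [hB]; nlinarith
  have hPn : 0 < P ^ (n + 3) := by positivity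
  have hPd : 0 < P ^ (d + 1) := by positivity
  have star : P ^ (n + 3) * B ≤ 2 * P * (N - 1) + (P - 1) * N * P ^ (d + 1) := by
    have e1 : P ^ (n + 3) * B ≤ P ^ (n + 3) * (2 * P * T) := mul_le_mul_of_nonneg_left h2 hPn.le
    have e2 : P ^ (n + 3) * (2 * P * T) = 2 * P * (N - 1) + (2 * C) * ((P - 1) * P ^ (d + 1)) := by
      rw [pow_succ P d]
      linear_combination (2 * P) * h1
    have e3 : (2 * C) * ((P - 1) * P ^ (d + 1)) ≤ N * ((P - 1) * P ^ (d + 1)) :=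
      mul_le_mul_of_nonneg_right hC2 (mul_nonneg (by linarith) hPd.le)
    have e4 : N * ((P - 1) * P ^ (d + 1)) = (P - 1) * N * P ^ (d + 1) := by ring
    linarith
  have hN0 : 0 < N := by linarith
  have hlt : N < P ^ 2 := by
    by_contra hcon
    push Not at hcon
    have f1 : P ^ (d + 1) ≤ P ^ (n + 3) := pow_le_pow_right₀ (by linarith) (by omega)
    have f2 : (P - 1) * N * P ^ (d + 1) ≤ (P - 1) * N * P ^ (n + 3) :=
      mul_le_mul_of_nonneg_left f1 (mul_nonneg (by linarith) hN0.le)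
    have f3 : (2 * P) * (P ^ (n + 2) * (N - P ^ 2)) ≤ (2 * P) * (N - 1) := by
      have f4 : (2 * P) * (P ^ (n + 2) * (N - P ^ 2)) =
          P ^ (n + 3) * B - (P - 1) * N * P ^ (n + 3) := by
        rw [hB]
        ring
      rw [f4]
      linarith
    have f5 : P ^ (n + 2) * (N - P ^ 2) ≤ N - 1 := le_of_mul_le_mul_left f3 (by linarith)
    have f6 : P ^ 2 ≤ P ^ (n + 2) := pow_le_pow_right₀ (by linarith) (by omega)
    have f7 : P ^ 2 * (N - P ^ 2) ≤ P ^ (n + 2) * (N - P ^ 2) :=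
      mul_le_mul_of_nonneg_right f6 (by linarith)
    have f8 : (P ^ 2 - 1) * (N - P ^ 2) ≤ (P ^ 2 - 1) * 1 := by linarith
    have f9 : N - P ^ 2 ≤ 1 := le_of_mul_le_mul_left f8 (by nlinarith)
    obtain ⟨s, hs⟩ := h4N
    have f10 : P ^ 2 = 4 * (r ^ 2 + r) + 1 := by rw [hr]; ring
    omega
  rcases Nat.lt_or_ge d 2 with hd | hd
  · have g1 : P ^ (d + 1) ≤ P ^ 2 := pow_le_pow_right₀ (by linarith) (by omega)
    have g2 : (P - 1) * N * P ^ (d + 1) ≤ (P - 1) * N * P ^ 2 :=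
      mul_le_mul_of_nonneg_left g1 (mul_nonneg (by linarith) hN0.le)
    have g3 : P ^ 3 * B ≤ P ^ (n + 3) * B :=
      mul_le_mul_of_nonneg_right (pow_le_pow_right₀ (by linarith) (by omega)) hB0
    have g4 : P * (P ^ 2 * B) ≤ P * (2 * (N - 1) + (P - 1) * N * P) := by
      have : P * (P ^ 2 * B) = P ^ 3 * B := by ring
      have : P * (2 * (N - 1) + (P - 1) * N * P) = 2 * P * (N - 1) + (P - 1) * N * P ^ 2 := by ring
      linarith
    have g5 : P ^ 2 * B ≤ 2 * (N - 1) + (P - 1) * N * P := le_of_mul_le_mul_left g4 hP0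
    have g6 : N * (P ^ 3 + P - 2) ≤ 2 * P ^ 4 - 2 := by
      rw [hB] at g5
      linarith
    have g7 : (2 * P + 1) * (P ^ 3 + P - 2) ≤ N * (P ^ 3 + P - 2) :=
      mul_le_mul_of_nonneg_right (by linarith) (by nlinarith [pow_pos hP0 3])
    have g8 : P ^ 3 + 2 * P ^ 2 - 3 * P ≤ 0 := by linarith
    have g9 : 0 < P ^ 3 := by positivity
    nlinarith
  · obtain ⟨e, rfl⟩ : ∃ e, d = e + 2 := ⟨d - 2, by omega⟩
    have g1 : P ^ 2 ∣ N - 1 := by
      refine ⟨P ^ (n + 1) * T - (P - 1) * C * P ^ e, ?_⟩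
      linear_combination -h1
    have g2 := Int.le_of_dvd (by linarith) g1
    linarith

end Pool.Agent.V5helper96.NP
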